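import Pool.Agent.Helper15_SIU.Stmts

/-!
# MP_021b97_an: module LNK (relation between wedge and w1)
-/

set_option autoImplicit false

open MeasureTheory Filter Topology

namespace Pool.Agent.SIU.H50

variable {N k : ℕ}

/-- sign of a permutation as a real number -/
noncomputable def sg {n : ℕ} (σ : Equiv.Perm (Fin n)) : ℝ := ((Equiv.Perm.sign σ : ℤ) : ℝ)

theorem sg_mul {n : ℕ} (σ τ : Equiv.Perm (Fin n)) : sg (σ * τ) = sg σ * sg τ := by
  simp [sg, Equiv.Perm.sign_mul]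

theorem sg_sq {n : ℕ} (σ : Equiv.Perm (Fin n)) : sg σ * sg σ = 1 := by
  rw [← sg_mul]
  rcases Int.units_eq_one_or (Equiv.Perm.sign σ) with h | h <;>
    simp [sg, Equiv.Perm.sign_mul, h]

theorem alt_perm (K : Alt N k) (v : Fin k → Fin N → ℂ) (σ : Equiv.Perm (Fin k)) :
    K (fun i => v (σ i)) = sg σ * K v := by
  have h := K.toAlternatingMap.map_perm v σ
  have h' : K (fun i => v (σ i)) = Equiv.Perm.sign σ • K v := h
  rw [h']
  rcases Int.units_eq_one_or (Equiv.Perm.sign σ) with h | h <;> simp [sg, h]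

theorem w1_apply (c : (Fin N → ℂ) →L[ℝ] ℝ) (K : Alt N k) (v : Fin (k + 1) → Fin N → ℂ) :
    w1 c K v = ∑ i : Fin (k + 1), (-1) ^ (i : ℕ) * (c (v i) * K (fun j => v (i.succAbove j))) := by
  unfold w1
  rw [ContinuousAlternatingMap.alternatizeUncurryFin_apply]
  refine Finset.sum_congr rfl fun i _ => ?_
  rw [zsmul_eq_mul]
  push_cast
  rfl

theorem w1_perm (c : (Fin N → ℂ) →L[ℝ] ℝ) (K : Alt N k) (v : Fin (k + 1) → Fin N → ℂ) :
    w1 c K v = ∑ i : Fin (k + 1), sg (i.cycleRange.symm) *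
      (c (v (i.cycleRange.symm 0)) * K (fun j => v (i.cycleRange.symm j.succ))) := by
  rw [w1_apply]
  refine Finset.sum_congr rfl fun i _ => ?_
  have h : sg (i.cycleRange.symm) = (-1) ^ (i : ℕ) := by
    simp [sg, Equiv.Perm.sign_symm]
  simp only [Fin.cycleRange_symm_zero, Fin.cycleRange_symm_succ, h]

/-- (k+1)! w1 c K = (k+1) * sum over permutations -/
theorem w1_sum (c : (Fin N → ℂ) →L[ℝ] ℝ) (K : Alt N k) (v : Fin (k + 1) → Fin N → ℂ) :
    ∑ σ : Equiv.Perm (Fin (k + 1)), sg σ * (c (v (σ 0)) * K (fun j => v (σ j.succ))) =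
      (k.factorial : ℝ) * w1 c K v := by
  have h1 : ∀ σ : Equiv.Perm (Fin (k + 1)), sg σ * w1 c K (fun i => v (σ i)) = w1 c K v := by
    intro σ
    rw [alt_perm, ← mul_assoc, sg_sq, one_mul]
  have h2 : ∑ σ : Equiv.Perm (Fin (k + 1)), sg σ * w1 c K (fun i => v (σ i)) =
      ((k + 1).factorial : ℝ) * w1 c K v := by
    rw [Finset.sum_congr rfl fun σ _ => h1 σ, Finset.sum_const, Finset.card_univ,
      Fintype.card_perm, Fintype.card_fin, nsmul_eq_mul]
  have h3 : ∑ σ : Equiv.Perm (Fin (k + 1)), sg σ * w1 c K (fun i => v (σ i)) =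
      ((k + 1 : ℕ) : ℝ) * ∑ σ : Equiv.Perm (Fin (k + 1)),
        sg σ * (c (v (σ 0)) * K (fun j => v (σ j.succ))) := by
    have h4 : ∀ i : Fin (k + 1), ∑ σ : Equiv.Perm (Fin (k + 1)), sg σ * (sg (i.cycleRange.symm) *
        (c (v (σ (i.cycleRange.symm 0))) * K (fun j => v (σ (i.cycleRange.symm j.succ))))) =
        ∑ σ : Equiv.Perm (Fin (k + 1)), sg σ * (c (v (σ 0)) * K (fun j => v (σ j.succ))) := by
      intro i
      rw [← Equiv.sum_comp (Equiv.mulRight (i.cycleRange.symm : Equiv.Perm (Fin (k + 1))))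
        (fun σ : Equiv.Perm (Fin (k + 1)) => sg σ * (c (v (σ 0)) * K (fun j => v (σ j.succ))))]
      refine Finset.sum_congr rfl fun σ _ => ?_
      simp only [Equiv.coe_mulRight, sg_mul, Equiv.Perm.mul_apply]
      ring
    calc ∑ σ : Equiv.Perm (Fin (k + 1)), sg σ * w1 c K (fun i => v (σ i))
        = ∑ σ : Equiv.Perm (Fin (k + 1)), ∑ i : Fin (k + 1), sg σ * (sg (i.cycleRange.symm) *
        (c (v (σ (i.cycleRange.symm 0))) * K (fun j => v (σ (i.cycleRange.symm j.succ))))) := by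
          refine Finset.sum_congr rfl fun σ _ => ?_
          rw [w1_perm, Finset.mul_sum]
      _ = ∑ i : Fin (k + 1), ∑ σ : Equiv.Perm (Fin (k + 1)), sg σ * (sg (i.cycleRange.symm) *
        (c (v (σ (i.cycleRange.symm 0))) * K (fun j => v (σ (i.cycleRange.symm j.succ))))) :=
          Finset.sum_comm
      _ = _ := by
          rw [Finset.sum_congr rfl fun i _ => h4 i, Finset.sum_const, Finset.card_univ,
            Fintype.card_fin, nsmul_eq_mul]
  rw [h2] at h3
  have hk : ((k + 1 : ℕ) : ℝ) ≠ 0 := by positivity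
  apply mul_left_cancel₀ hk
  rw [← h3, Nat.factorial_succ]
  push_cast
  ring

/-- extension of a permutation by a fixed point at 0 -/
noncomputable def ext0 {n : ℕ} (ρ : Equiv.Perm (Fin n)) : Equiv.Perm (Fin (n + 1)) :=
  Equiv.Perm.decomposeFin.symm (0, ρ)

theorem ext0_zero {n : ℕ} (ρ : Equiv.Perm (Fin n)) : ext0 ρ 0 = 0 := by
  simp [ext0]

theorem ext0_succ {n : ℕ} (ρ : Equiv.Perm (Fin n)) (j : Fin n) : ext0 ρ j.succ = (ρ j).succ := by
  simp [ext0]

theorem sg_ext0 {n : ℕ} (ρ : Equiv.Perm (Fin n)) : sg (ext0 ρ) = sg ρ := by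
  simp [sg, ext0, Equiv.Perm.decomposeFin.symm_sign]

/-- k! w1 b (w1 c K) = sum over permutations -/
theorem w1w1_sum (b c : (Fin N → ℂ) →L[ℝ] ℝ) (K : Alt N k) (v : Fin (k + 1 + 1) → Fin N → ℂ) :
    ∑ σ : Equiv.Perm (Fin (k + 1 + 1)), sg σ * (b (v (σ 0)) * (c (v (σ (Fin.succ 0))) *
      K (fun j => v (σ j.succ.succ)))) = (k.factorial : ℝ) * w1 b (w1 c K) v := by
  have h1 := w1_sum b (w1 c K) v
  have h2 : ∀ ρ : Equiv.Perm (Fin (k + 1)), ∑ σ : Equiv.Perm (Fin (k + 1 + 1)),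
      sg σ * (b (v (σ 0)) * (sg ρ * (c (v (σ (ρ 0).succ)) *
        K (fun j => v (σ (ρ j.succ).succ))))) = ∑ σ : Equiv.Perm (Fin (k + 1 + 1)),
      sg σ * (b (v (σ 0)) * (c (v (σ (Fin.succ 0))) * K (fun j => v (σ j.succ.succ)))) := by
    intro ρ
    rw [← Equiv.sum_comp (Equiv.mulRight (ext0 ρ))
        (fun σ : Equiv.Perm (Fin (k + 1 + 1)) => sg σ * (b (v (σ 0)) * (c (v (σ (Fin.succ 0))) *
      K (fun j => v (σ j.succ.succ)))))]
    refine Finset.sum_congr rfl fun σ _ => ?_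
    simp only [Equiv.coe_mulRight, sg_mul, Equiv.Perm.mul_apply, sg_ext0, ext0_zero, ext0_succ]
    ring
  have h3 : (k.factorial : ℝ) * (∑ σ : Equiv.Perm (Fin (k + 1 + 1)),
      sg σ * (b (v (σ 0)) * w1 c K (fun j => v (σ j.succ)))) =
      ((k + 1).factorial : ℝ) * ∑ σ : Equiv.Perm (Fin (k + 1 + 1)),
      sg σ * (b (v (σ 0)) * (c (v (σ (Fin.succ 0))) * K (fun j => v (σ j.succ.succ)))) := by
    calc (k.factorial : ℝ) * (∑ σ : Equiv.Perm (Fin (k + 1 + 1)),
          sg σ * (b (v (σ 0)) * w1 c K (fun j => v (σ j.succ))))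
        = ∑ σ : Equiv.Perm (Fin (k + 1 + 1)), ∑ ρ : Equiv.Perm (Fin (k + 1)),
            sg σ * (b (v (σ 0)) * (sg ρ * (c (v (σ (ρ 0).succ)) *
              K (fun j => v (σ (ρ j.succ).succ))))) := by
          rw [Finset.mul_sum]
          refine Finset.sum_congr rfl fun σ _ => ?_
          have := w1_sum c K (fun j => v (σ j.succ))
          calc (k.factorial : ℝ) * (sg σ * (b (v (σ 0)) * w1 c K (fun j => v (σ j.succ))))
              = sg σ * (b (v (σ 0)) * ((k.factorial : ℝ) * w1 c K (fun j => v (σ j.succ)))) := by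
                ring
            _ = _ := by
                rw [← this, Finset.mul_sum, Finset.mul_sum]
      _ = ∑ ρ : Equiv.Perm (Fin (k + 1)), ∑ σ : Equiv.Perm (Fin (k + 1 + 1)),
            sg σ * (b (v (σ 0)) * (sg ρ * (c (v (σ (ρ 0).succ)) *
              K (fun j => v (σ (ρ j.succ).succ))))) := Finset.sum_comm
      _ = _ := by
          rw [Finset.sum_congr rfl fun ρ _ => h2 ρ, Finset.sum_const, Finset.card_univ,
            Fintype.card_perm, Fintype.card_fin, nsmul_eq_mul]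
  rw [h1] at h3
  have hk : ((k + 1).factorial : ℝ) ≠ 0 := by positivity
  apply mul_left_cancel₀ hk
  rw [← h3]
  ring

theorem cc2_apply (b c : (Fin N → ℂ) →L[ℝ] ℝ) (u : Fin 2 → Fin N → ℂ) :
    cc2 b c u = b (u 0) * c (u 1) - b (u 1) * c (u 0) := by
  unfold cc2
  rw [w1_apply, Fin.sum_univ_two, w1_apply, w1_apply, Fin.sum_univ_one, Fin.sum_univ_one]
  have h1 : ∀ w : Fin 0 → Fin N → ℂ, cst N 1 w = 1 := fun w => rfl
  rw [h1, h1]
  have e1 : (0 : Fin 2).succAbove (0 : Fin 1) = 1 := rfl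
  have e2 : (1 : Fin 2).succAbove (0 : Fin 1) = 0 := rfl
  rw [e1, e2]
  simp
  ring

theorem wedge_apply {l : ℕ} (K : Alt N k) (L : Alt N l) (v : Fin (k + l) → Fin N → ℂ) :
    wedge K L v = ((k.factorial * l.factorial : ℕ) : ℝ)⁻¹ * ∑ σ : Equiv.Perm (Fin (k + l)),
      sg σ * (K (fun i => v (σ (Fin.castAdd l i))) * L (fun j => v (σ (Fin.natAdd k j)))) := by
  unfold wedge
  rw [ContinuousAlternatingMap.smul_apply,
    ContinuousMultilinearMap.alternatization_apply_apply, smul_eq_mul]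
  congr 1
  refine Finset.sum_congr rfl fun σ _ => ?_
  have h : (Equiv.Perm.sign σ • tensor K L (fun i => v (σ i)) : ℝ) =
      sg σ * tensor K L (fun i => v (σ i)) := by
    rcases Int.units_eq_one_or (Equiv.Perm.sign σ) with h | h <;> simp [sg, h]
  exact h

/-- rotation by two places -/
noncomputable def rot (k : ℕ) : Equiv.Perm (Fin (k + 2)) := finRotate (k + 2) * finRotate (k + 2)

theorem sg_rot (k : ℕ) : sg (rot k) = 1 := by
  unfold rot
  rw [sg_mul, sg_sq]

theorem rot_val (k : ℕ) (i : Fin (k + 2)) : ((rot k i : Fin (k + 2)) : ℕ) = (i + 2) % (k + 2) := by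
  unfold rot
  rw [Equiv.Perm.mul_apply, finRotate_apply, finRotate_apply, Fin.val_add, Fin.val_add]
  have h1 : ((1 : Fin (k + 1 + 1)) : ℕ) = 1 := rfl
  rw [h1, Nat.mod_add_mod]

theorem rot_castAdd (k : ℕ) (j : Fin k) : rot k (Fin.castAdd 2 j) = j.succ.succ := by
  apply Fin.ext
  rw [rot_val]
  simp only [Fin.val_castAdd, Fin.val_succ]
  rw [Nat.mod_eq_of_lt (by omega)]

theorem rot_nat0 (k : ℕ) : rot k (Fin.natAdd k 0) = 0 := by
  apply Fin.ext
  rw [rot_val]
  simp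

theorem rot_nat1 (k : ℕ) : rot k (Fin.natAdd k 1) = (Fin.succ 0) := by
  apply Fin.ext
  rw [rot_val]
  simp only [Fin.val_natAdd, Fin.val_succ]
  have : ((1 : Fin 2) : ℕ) = 1 := rfl
  rw [this, show k + 1 + 2 = 1 + (k + 2) by ring, Nat.add_mod_right]
  rw [Nat.mod_eq_of_lt (by omega)]
  rfl

theorem lnk_one (K : Alt N k) (b c : (Fin N → ℂ) →L[ℝ] ℝ) :
    wedge K (cc2 b c) = w1 b (w1 c K) := by
  apply ContinuousAlternatingMap.ext
  intro v
  rw [wedge_apply]
  set S := ∑ σ : Equiv.Perm (Fin (k + 1 + 1)), sg σ * (b (v (σ 0)) * (c (v (σ (Fin.succ 0))) *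
      K (fun j => v (σ j.succ.succ)))) with hS
  have hw : S = (k.factorial : ℝ) * w1 b (w1 c K) v := w1w1_sum b c K v
  have hA : ∑ σ : Equiv.Perm (Fin (k + 2)), sg σ * (K (fun i => v (σ (Fin.castAdd 2 i))) *
      (b (v (σ (Fin.natAdd k 0))) * c (v (σ (Fin.natAdd k 1))))) = S := by
    rw [hS, ← Equiv.sum_comp (Equiv.mulRight (rot k))
        (fun σ : Equiv.Perm (Fin (k + 2)) => sg σ * (K (fun i => v (σ (Fin.castAdd 2 i))) *
      (b (v (σ (Fin.natAdd k 0))) * c (v (σ (Fin.natAdd k 1))))))]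
    refine Finset.sum_congr rfl fun σ _ => ?_
    simp only [Equiv.coe_mulRight, sg_mul, Equiv.Perm.mul_apply, sg_rot, rot_castAdd, rot_nat0,
      rot_nat1]
    ring
  have hB : ∑ σ : Equiv.Perm (Fin (k + 2)), sg σ * (K (fun i => v (σ (Fin.castAdd 2 i))) *
      (b (v (σ (Fin.natAdd k 1))) * c (v (σ (Fin.natAdd k 0))))) = - S := by
    rw [← hA, ← Finset.sum_neg_distrib,
      ← Equiv.sum_comp (Equiv.mulRight (Equiv.swap (Fin.natAdd k (0 : Fin 2)) (Fin.natAdd k 1)))
        (fun σ : Equiv.Perm (Fin (k + 2)) => sg σ * (K (fun i => v (σ (Fin.castAdd 2 i))) *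
      (b (v (σ (Fin.natAdd k 1))) * c (v (σ (Fin.natAdd k 0))))))]
    refine Finset.sum_congr rfl fun σ _ => ?_
    have hne : (Fin.natAdd k (0 : Fin 2)) ≠ Fin.natAdd k 1 := by
      intro h
      have := congrArg Fin.val h
      simp at this
    have hs : sg (Equiv.swap (Fin.natAdd k (0 : Fin 2)) (Fin.natAdd k 1)) = -1 := by
      simp [sg, Equiv.Perm.sign_swap hne]
    have hc : ∀ i : Fin k, Equiv.swap (Fin.natAdd k (0 : Fin 2)) (Fin.natAdd k 1)
        (Fin.castAdd 2 i) = Fin.castAdd 2 i := by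
      intro i
      apply Equiv.swap_apply_of_ne_of_ne
      · intro h
        have := congrArg Fin.val h
        simp at this
        omega
      · intro h
        have := congrArg Fin.val h
        simp at this
        omega
    simp only [Equiv.coe_mulRight, sg_mul, Equiv.Perm.mul_apply, hs, hc, Equiv.swap_apply_left,
      Equiv.swap_apply_right]
    ring
  have hT : ∑ σ : Equiv.Perm (Fin (k + 2)), sg σ * (K (fun i => v (σ (Fin.castAdd 2 i))) *
      cc2 b c (fun j => v (σ (Fin.natAdd k j)))) = 2 * S := by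
    have : 2 * S = S - (- S) := by ring
    rw [this, ← hB]
    nth_rewrite 1 [← hA]
    rw [← Finset.sum_sub_distrib]
    refine Finset.sum_congr rfl fun σ _ => ?_
    rw [cc2_apply]
    ring
  rw [hT, hw]
  have hk : (k.factorial : ℝ) ≠ 0 := by positivity
  push_cast
  rw [show ((Nat.factorial 2 : ℕ) : ℝ) = 2 by norm_num [Nat.factorial]]
  field_simp

theorem cst_wedge (b : Alt N 2) : (wedge (cst N 1) b : Alt N (0 + 2)) = b := by
  apply ContinuousAlternatingMap.ext
  intro v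
  rw [wedge_apply]
  have h1 : ∀ σ : Equiv.Perm (Fin (0 + 2)), sg σ * (cst N 1 (fun i => v (σ (Fin.castAdd 2 i))) *
      b (fun j => v (σ (Fin.natAdd 0 j)))) = b v := by
    intro σ
    have h2 : ∀ w : Fin 0 → Fin N → ℂ, cst N 1 w = 1 := fun w => rfl
    have h3 : (fun j : Fin 2 => v (σ (Fin.natAdd 0 j))) = fun j : Fin 2 => v (σ j) := by
      funext j
      congr 2
      apply Fin.ext
      simp
    have h4 : b (fun j : Fin 2 => v (σ j)) = sg σ * b v := alt_perm b v σ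
    rw [h2, h3, h4, one_mul, ← mul_assoc, sg_sq, one_mul]
  rw [Finset.sum_congr rfl fun σ _ => h1 σ, Finset.sum_const, Finset.card_univ,
            Fintype.card_perm, Fintype.card_fin, nsmul_eq_mul]
  have h5 : Nat.factorial (0 + 2) = 2 := rfl
  rw [h5, Nat.factorial_zero]
  push_cast
  ring

/-- LNK -/
theorem lnk (_h : WonStmt) : LnkStmt :=
  ⟨fun _ _ _ K b c => lnk_one K b c, fun _ b => cst_wedge b⟩

end Pool.Agent.SIU.H50
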