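import Pool.Agent.Helper15_SIU.Stmts

/-!
# MP_021b97_an: module BSD (exterior derivatives of basic forms are basic)
-/

set_option autoImplicit false

open MeasureTheory Filter Topology

namespace Pool.Agent.SIU.H50

namespace Bsd

variable {N r n : ℕ} (X : Toric N r n)

/-- diagonal real linear map -/
noncomputable def diag (s : Fin N → ℂ) : (Fin N → ℂ) →L[ℝ] (Fin N → ℂ) :=
  ContinuousLinearMap.pi fun m =>
    ((s m • ContinuousLinearMap.id ℂ ℂ).restrictScalars ℝ).comp
      (ContinuousLinearMap.proj (R := ℝ) (φ := fun _ : Fin N => ℂ) m)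

theorem diag_apply (s : Fin N → ℂ) (z : Fin N → ℂ) (m : Fin N) : diag s z m = s m * z m := rfl

/-- the action as a linear map -/
noncomputable def actR (c : Fin r → ℂ) : (Fin N → ℂ) →L[ℝ] (Fin N → ℂ) :=
  diag fun m => ∏ j, c j ^ X.wt m j

theorem actR_apply (c : Fin r → ℂ) (z : Fin N → ℂ) : actR X c z = X.act c z := rfl

/-- vertical vector fields as linear maps -/
noncomputable def vl (a : Fin r → ℂ) : (Fin N → ℂ) →L[ℝ] (Fin N → ℂ) :=
  diag fun m => ∑ j, a j * X.wt m j

theorem vert_vl (a : Fin r → ℂ) (z : Fin N → ℂ) : X.Vert z (vl X a z) := ⟨a, fun _ => rfl⟩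

/-- one parameter subgroup -/
noncomputable def ct (a : Fin r → ℂ) (t : ℝ) : Fin r → ℂ := fun j => Complex.exp (t * a j)

theorem ct_ne (a : Fin r → ℂ) (t : ℝ) (j : Fin r) : ct a t j ≠ 0 := Complex.exp_ne_zero _

theorem act_ct (a : Fin r → ℂ) (t : ℝ) (w : Fin N → ℂ) (m : Fin N) :
    X.act (ct a t) w m = Complex.exp (t * ∑ j, a j * X.wt m j) * w m := by
  show (∏ j, ct a t j ^ X.wt m j) * w m = _
  congr 1
  rw [Finset.mul_sum, Complex.exp_sum]
  refine Finset.prod_congr rfl fun j _ => ?_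
  rw [ct, ← Complex.exp_int_mul]
  congr 1
  ring

theorem act_ct_zero (a : Fin r → ℂ) (w : Fin N → ℂ) : X.act (ct a 0) w = w := by
  funext m
  rw [act_ct]
  simp

theorem hasDerivAt_act (a : Fin r → ℂ) (w : Fin N → ℂ) :
    HasDerivAt (fun t : ℝ => X.act (ct a t) w) (vl X a w) 0 := by
  rw [hasDerivAt_pi]
  intro m
  have h1 : (fun t : ℝ => X.act (ct a t) w m) =
      fun t : ℝ => Complex.exp (t * ∑ j, a j * X.wt m j) * w m := by
    funext t
    exact act_ct X a t w m
  rw [h1]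
  have h2 : HasDerivAt (fun t : ℝ => (t : ℂ) * ∑ j, a j * X.wt m j) (∑ j, a j * X.wt m j) 0 := by
    have := (Complex.ofRealCLM.hasDerivAt (x := 0)).mul_const (∑ j, a j * (X.wt m j : ℂ))
    simpa using this
  have h3 := (h2.cexp).mul_const (w m)
  have h4 : Complex.exp (((0 : ℝ) : ℂ) * ∑ j, a j * X.wt m j) * (∑ j, a j * X.wt m j) * w m =
      vl X a w m := by
    rw [vl, diag_apply]
    simp
  rw [h4] at h3
  exact h3

variable {V : Set (Fin N → ℂ)}

section fn

variable {f : (Fin N → ℂ) → ℝ}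

theorem fn_inv (hV : IsOpen V) (hG : ∀ w ∈ V, ∀ c : Fin r → ℂ, (∀ j, c j ≠ 0) → X.act c w ∈ V)
    (hf : DifferentiableOn ℝ f V)
    (hi : ∀ z ∈ V, ∀ c : Fin r → ℂ, (∀ j, c j ≠ 0) → f (X.act c z) = f z)
    (z : Fin N → ℂ) (hz : z ∈ V) (c : Fin r → ℂ) (hc : ∀ j, c j ≠ 0) (v : Fin N → ℂ) :
    fderiv ℝ f (X.act c z) (X.act c v) = fderiv ℝ f z v := by
  have h1 : HasFDerivAt f (fderiv ℝ f (X.act c z)) (actR X c z) :=
    ((hf (X.act c z) (hG z hz c hc)).differentiableAt (hV.mem_nhds (hG z hz c hc))).hasFDerivAt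
  have h2 : HasFDerivAt (f ∘ actR X c) ((fderiv ℝ f (X.act c z)).comp (actR X c)) z :=
    HasFDerivAt.comp z h1 (actR X c).hasFDerivAt
  have h3 : (f ∘ actR X c) =ᶠ[𝓝 z] f := by
    filter_upwards [hV.mem_nhds hz] with w hw
    exact hi w hw c hc
  have h4 := h3.fderiv_eq (𝕜 := ℝ)
  rw [h2.fderiv] at h4
  rw [← h4]
  rfl

theorem fn_vert (hV : IsOpen V) (hf : DifferentiableOn ℝ f V)
    (hi : ∀ z ∈ V, ∀ c : Fin r → ℂ, (∀ j, c j ≠ 0) → f (X.act c z) = f z)
    (z : Fin N → ℂ) (hz : z ∈ V) (v : Fin N → ℂ) (hv : X.Vert z v) : fderiv ℝ f z v = 0 := by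
  obtain ⟨a, ha⟩ := hv
  have hv : v = vl X a z := funext ha
  have h1 : HasFDerivAt f (fderiv ℝ f z) (X.act (ct a 0) z) := by
    rw [act_ct_zero]
    exact ((hf z hz).differentiableAt (hV.mem_nhds hz)).hasFDerivAt
  have h2 := h1.comp_hasDerivAt (0 : ℝ) (hasDerivAt_act X a z)
  have h3 : (f ∘ fun t : ℝ => X.act (ct a t) z) = fun _ => f z := by
    funext t
    exact hi z hz _ (ct_ne a t)
  rw [h3] at h2
  rw [hv]
  exact h2.unique (hasDerivAt_const _ _)

end fn

section form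

variable {k : ℕ} {η : (Fin N → ℂ) → Alt N k}

theorem form_inv (hV : IsOpen V) (hG : ∀ w ∈ V, ∀ c : Fin r → ℂ, (∀ j, c j ≠ 0) → X.act c w ∈ V)
    (hη : DifferentiableOn ℝ η V) (hb : X.BasicOn V η)
    (z : Fin N → ℂ) (hz : z ∈ V) (c : Fin r → ℂ) (hc : ∀ j, c j ≠ 0)
    (v : Fin (k + 1) → Fin N → ℂ) :
    extDeriv η (X.act c z) (fun i => X.act c (v i)) = extDeriv η z v := by
  have h1 : DifferentiableAt ℝ η (actR X c z) :=
    (hη (X.act c z) (hG z hz c hc)).differentiableAt (hV.mem_nhds (hG z hz c hc))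
  have h2 := extDeriv_pullback (r := ⊤) (ω := η) (f := actR X c) (x := z) h1
    (actR X c).contDiff.contDiffAt (by simp)
  have h3 : (fun x => (η (actR X c x)).compContinuousLinearMap (fderiv ℝ (actR X c) x)) =ᶠ[𝓝 z]
      η := by
    filter_upwards [hV.mem_nhds hz] with w hw
    apply ContinuousAlternatingMap.ext
    intro u
    rw [(actR X c).fderiv]
    exact hb.1 w hw c hc u
  rw [h3.extDeriv_eq] at h2
  rw [h2, (actR X c).fderiv]
  rfl

theorem lie_zero (hV : IsOpen V) (hη : DifferentiableOn ℝ η V) (hb : X.BasicOn V η)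
    (z : Fin N → ℂ) (hz : z ∈ V) (a : Fin r → ℂ) (u : Fin k → Fin N → ℂ) :
    fderiv ℝ η z (vl X a z) u + ∑ l, η z (Function.update u l (vl X a (u l))) = 0 := by
  have h1 : HasFDerivAt η (fderiv ℝ η z) (X.act (ct a 0) z) := by
    rw [act_ct_zero]
    exact ((hη z hz).differentiableAt (hV.mem_nhds hz)).hasFDerivAt
  have h2 := (h1.comp_hasDerivAt (0 : ℝ) (hasDerivAt_act X a z)).hasFDerivAt
  have h3 := h2.continuousAlternatingMap_apply
    (g := fun i t => X.act (ct a t) (u i)) (fun i => (hasDerivAt_act X a (u i)).hasFDerivAt)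
  have h4 : (fun t : ℝ => (η ∘ fun t : ℝ => X.act (ct a t) z) t
      (fun i => X.act (ct a t) (u i))) = fun _ => η z u := by
    funext t
    exact hb.1 z hz _ (ct_ne a t) u
  rw [h4] at h3
  have h5 := congrArg (fun L : ℝ →L[ℝ] ℝ => L 1) (h3.unique (hasFDerivAt_const (η z u) (0 : ℝ)))
  simpa [act_ct_zero] using h5

theorem hor_deriv (hV : IsOpen V) {k : ℕ} {η : (Fin N → ℂ) → Alt N (k + 1)}
    (hη : DifferentiableOn ℝ η V) (hb : X.BasicOn V η)
    (z : Fin N → ℂ) (hz : z ∈ V) (a : Fin r → ℂ) (u : Fin k → Fin N → ℂ) (x : Fin N → ℂ) :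
    fderiv ℝ η z x (Matrix.vecCons (vl X a z) u) + η z (Matrix.vecCons (vl X a x) u) = 0 := by
  have h1 : HasFDerivAt η (fderiv ℝ η z) z :=
    ((hη z hz).differentiableAt (hV.mem_nhds hz)).hasFDerivAt
  let g : Fin (k + 1) → (Fin N → ℂ) → (Fin N → ℂ) :=
    Matrix.vecCons (fun w => vl X a w) (fun i _ => u i)
  let g' : Fin (k + 1) → (Fin N → ℂ) →L[ℝ] (Fin N → ℂ) := Matrix.vecCons (vl X a) (fun _ => 0)
  have h2 : ∀ i, HasFDerivAt (g i) (g' i) z := by
    intro i
    refine Fin.cases ?_ (fun j => ?_) i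
    · exact (vl X a).hasFDerivAt
    · exact hasFDerivAt_const _ _
  have h3 := h1.continuousAlternatingMap_apply h2
  have h4 : (fun w => η w (fun i => g i w)) =ᶠ[𝓝 z] fun _ => 0 := by
    filter_upwards [hV.mem_nhds hz] with w hw
    exact hb.2 w hw _ 0 (vert_vl X a w)
  have h5 := congrArg (fun L : (Fin N → ℂ) →L[ℝ] ℝ => L x)
    (h3.unique ((hasFDerivAt_const (0 : ℝ) z).congr_of_eventuallyEq h4))
  have h6 : (fun i => g i z) = Matrix.vecCons (vl X a z) u := by
    funext i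
    refine Fin.cases ?_ (fun j => ?_) i <;> rfl
  have h7 : ∑ i, η z (Function.update (fun i => g i z) i (g' i x)) =
      η z (Matrix.vecCons (vl X a x) u) := by
    rw [Fin.sum_univ_succ, Finset.sum_eq_zero, add_zero]
    · congr 1
      rw [h6]
      funext i
      refine Fin.cases ?_ (fun j => ?_) i
      · rfl
      · rfl
    · intro j _
      apply (η z).map_coord_zero j.succ
      rw [Function.update_self]
      rfl
  rw [← h7, ← h6]
  simpa using h5

theorem alt_swap {k : ℕ} (Ω : Alt N (k + 1)) (y : Fin N → ℂ)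
    (h : ∀ u : Fin k → Fin N → ℂ, Ω (Matrix.vecCons y u) = 0)
    (v : Fin (k + 1) → Fin N → ℂ) (i : Fin (k + 1)) (hi : v i = y) : Ω v = 0 := by
  have h1 : Ω (fun j => v (Equiv.swap 0 i j)) = 0 := by
    have h2 : (fun j => v (Equiv.swap 0 i j)) =
        Matrix.vecCons y (fun j : Fin k => v (Equiv.swap 0 i j.succ)) := by
      funext j
      refine Fin.cases ?_ (fun l => rfl) j
      simp [hi]
    rw [h2]
    exact h _
  have h3 := Ω.toAlternatingMap.map_perm v (Equiv.swap 0 i)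
  have h4 : Ω (fun j => v (Equiv.swap 0 i j)) = Equiv.Perm.sign (Equiv.swap 0 i) • Ω v := h3
  rw [h1] at h4
  rcases Int.units_eq_one_or (Equiv.Perm.sign (Equiv.swap 0 i)) with h | h
  · rw [h, one_smul] at h4
    exact h4.symm
  · rw [h] at h4
    have h5 : (-1 : ℤˣ) • Ω v = - Ω v := by simp [Units.smul_def]
    rw [h5] at h4
    linarith

theorem form_vert_cons (hV : IsOpen V) (hη : DifferentiableOn ℝ η V) (hb : X.BasicOn V η)
    (z : Fin N → ℂ) (hz : z ∈ V) (a : Fin r → ℂ) (u : Fin k → Fin N → ℂ) :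
    extDeriv η z (Matrix.vecCons (vl X a z) u) = 0 := by
  have hd : DifferentiableAt ℝ η z := (hη z hz).differentiableAt (hV.mem_nhds hz)
  have hL := lie_zero X hV hη hb z hz a u
  have h0 : extDeriv η z (Matrix.vecCons (vl X a z) u) =
      ∑ i : Fin (k + 1), (-1) ^ (i : ℕ) * fderiv ℝ η z (Matrix.vecCons (vl X a z) u i)
        (i.removeNth (Matrix.vecCons (vl X a z) u)) := by
    rw [extDeriv, ContinuousAlternatingMap.alternatizeUncurryFin_apply]
    refine Finset.sum_congr rfl fun i _ => ?_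
    rw [zsmul_eq_mul]
    push_cast
    rfl
  rw [h0, Fin.sum_univ_succ]
  have h1 : ((0 : Fin (k + 1)).removeNth (Matrix.vecCons (vl X a z) u)) = u := by
    funext j
    simp [Fin.removeNth]
  have h2 : ∀ l : Fin k, (-1) ^ ((l.succ : Fin (k + 1)) : ℕ) *
      fderiv ℝ η z (Matrix.vecCons (vl X a z) u l.succ)
        (l.succ.removeNth (Matrix.vecCons (vl X a z) u)) =
      η z (Function.update u l (vl X a (u l))) := by
    intro l
    obtain _ | k := k
    · exact l.elim0
    have h3 : (l.succ.removeNth (Matrix.vecCons (vl X a z) u)) =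
        Matrix.vecCons (vl X a z) (l.removeNth u) := by
      funext j
      refine Fin.cases ?_ (fun m => ?_) j <;> simp [Fin.removeNth]
    have h4 := hor_deriv X hV hη hb z hz a (l.removeNth u) (u l)
    have h5 : η z (Function.update u l (vl X a (u l))) =
        (-1) ^ (l : ℕ) * η z (Matrix.vecCons (vl X a (u l)) (l.removeNth u)) := by
      have h6 : Function.update u l (vl X a (u l)) =
          l.insertNth (vl X a (u l)) (l.removeNth u) := by
        rw [Fin.insertNth_removeNth]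
      rw [h6, ContinuousAlternatingMap.map_insertNth, zsmul_eq_mul]
      push_cast
      rfl
    rw [h3, h5]
    have h6 : Matrix.vecCons (vl X a z) u l.succ = u l := rfl
    rw [h6, Fin.val_succ, pow_succ]
    linear_combination (- (-1 : ℝ) ^ (l : ℕ)) * h4
  rw [h1, Finset.sum_congr rfl fun l _ => h2 l]
  simpa using hL

end form

end Bsd

/-- BSD -/
theorem bsd : BsdStmt := by
  intro N r n X V hV hG
  refine ⟨fun k η hη hb => ⟨fun z hz c hc v => Bsd.form_inv X hV hG hη hb z hz c hc v,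
    fun z hz v i hv => ?_⟩, fun f hf hi => ⟨fun z hz c hc v => Bsd.fn_inv X hV hG hf hi z hz c hc v,
      fun z hz v hv => Bsd.fn_vert X hV hf hi z hz v hv⟩, fun k η u hb => ⟨fun z hz c hc v => ?_,
      fun z hz v i hv => ?_⟩⟩
  · obtain ⟨a, ha⟩ := hv
    exact Bsd.alt_swap (extDeriv η z) (Bsd.vl X a z)
      (Bsd.form_vert_cons X hV hη hb z hz a) v i (funext ha)
  · have h1 : ∀ w : Fin N → ℂ, mulC N u (X.act c w) = X.act c (mulC N u w) := by
      intro w
      funext m
      show u * ((∏ j, c j ^ X.wt m j) * w m) = (∏ j, c j ^ X.wt m j) * (u * w m)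
      ring
    show η (X.act c z) (fun i => mulC N u (X.act c (v i))) = η z (fun i => mulC N u (v i))
    simp only [h1]
    exact hb.1 z hz c hc _
  · obtain ⟨a, ha⟩ := hv
    refine hb.2 z hz (fun i => mulC N u (v i)) i ⟨fun j => u * a j, fun m => ?_⟩
    show u * v i m = _
    rw [ha m, ← mul_assoc, Finset.mul_sum]
    congr 1
    exact Finset.sum_congr rfl fun j _ => by ring

end Pool.Agent.SIU.H50
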